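import Pool.Agent.MP_187b32_an.Herm.Macro
import Pool.Agent.MP_187b32_an.Calc.Complete
import Pool.Agent.MP_187b32_an.Calc.HermC

/-!
Solvability of the linearised collision equation in Schwartz space (statement C7).
-/

set_option autoImplicit false

open MeasureTheory SchwartzMap Pool.Agent.Boltz Filter Topology

noncomputable section

namespace Pool.Agent.MP_187b32_an.Corr

lemma exists_galerkin (V : Submodule ℝ SV) [FiniteDimensional ℝ V] (B : SV →ₗ[ℝ] SV →ₗ[ℝ] ℝ)
    (hB : ∀ x ∈ V, B x x = 0 → x = 0) (l : SV →ₗ[ℝ] ℝ) : ∃ x ∈ V, ∀ y ∈ V, B x y = l y := by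
  let T : V →ₗ[ℝ] Module.Dual ℝ V := B.compl₁₂ V.subtype V.subtype
  have hinj : Function.Injective T := by
    rw [injective_iff_map_eq_zero]
    intro x hx
    exact Subtype.ext (hB x x.2 (LinearMap.congr_fun hx x))
  have hsurj : Function.Surjective T :=
    (LinearMap.injective_iff_surjective_of_finrank_eq_finrank
      (Subspace.dual_finrank_eq (K := ℝ) (V := V)).symm).1 hinj
  obtain ⟨x, hx⟩ := hsurj (l.comp V.subtype)
  exact ⟨x, x.2, fun y hy => LinearMap.congr_fun hx ⟨y, hy⟩⟩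

lemma eq_zero_of_ip_HP {f : SV} (h : ∀ n, ∀ g ∈ HP n, ip f g = 0) : f = 0 := by
  have h0 := hermite_complete (f.memLp 2 volume) h
  have h1 : (f : E → ℝ) = 0 := Measure.eq_of_ae_eq h0 f.continuous continuous_zero
  ext v
  exact congrFun h1 v

variable (G : SV →ₗ[ℝ] SV →ₗ[ℝ] SV)

/-- Lower order operators. -/
inductive LO (m : ℕ) : (SV → SV) → Prop
  | zero : LO m fun _ => 0
  | base (h : SV) (u : List (Fin 3)) (hu : u.length < m) : LO m fun g => G h (apW u g)
  | add {X Y : SV → SV} : LO m X → LO m Y → LO m fun g => X g + Y g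

variable {G}

lemma LO.ap_comp (leib : ∀ j f g, ap j (G f g) = G (ap j f) g + G f (ap j g)) {m : ℕ}
    {X : SV → SV} (hX : LO G m X) (j : Fin 3) : LO G (m + 1) fun g => ap j (X g) := by
  induction hX with
  | zero => simpa using LO.zero
  | base h u hu =>
    simp only [leib]
    exact LO.add (LO.base _ u (by omega)) (LO.base h (j :: u) (by simpa using hu))
  | add _ _ h1 h2 =>
    simp only [map_add]
    exact LO.add h1 h2

lemma exists_comm (leib : ∀ j f g, ap j (G f g) = G (ap j f) g + G f (ap j g))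
    {L : SV →L[ℝ] SV} (L_eq : ∀ f, L f = -G sqMS f) (w : List (Fin 3)) :
    ∃ X, LO G w.length X ∧ ∀ g, apW w (L g) = L (apW w g) + X g := by
  induction w with
  | nil => exact ⟨fun _ => 0, LO.zero, fun g => by simp⟩
  | cons j w ih =>
    obtain ⟨X, hX, h⟩ := ih
    refine ⟨fun g => G (-ap j sqMS) (apW w g) + ap j (X g),
      LO.add (LO.base _ w (by simp)) (hX.ap_comp leib j), fun g => ?_⟩
    beta_reduce
    rw [apW_cons, h, map_add, L_eq, L_eq, map_neg, leib, apW_cons, map_neg, LinearMap.neg_apply]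
    abel

section Main

variable {L : SV →L[ℝ] SV} {p : ℕ}

/-- Sum of the dissipation norms at level `m`. -/
def Yq (L : SV →L[ℝ] SV) (m : ℕ) (g : SV) : ℝ :=
  ∑ w ∈ words m, (ip (L (apW w g)) (apW w g) + ip (apW w g) (apW w g))

lemma LO.bound (symm : ∀ f g, G f g = G g f) (hD : ∀ f, 0 ≤ ip (L f) f)
    (tri : ∃ C : ℝ, 0 < C ∧ ∀ g h f,
      |ip (G g h) f| ≤ C * √(nA p h) * √(ip (L g) g + ip g g) * √(ip (L f) f))
    {m : ℕ} {X : SV → SV} (hX : LO G m X) : ∃ C : ℝ, 0 ≤ C ∧ ∀ g f,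
      |ip (X g) f| ≤ C * √(∑ j ∈ Finset.range m, Yq L j g) * √(ip (L f) f) := by
  have hq : ∀ f, 0 ≤ ip (L f) f + ip f f := fun f => add_nonneg (hD f) (ip_self_nonneg f)
  have hY : ∀ j g, 0 ≤ Yq L j g := fun j g => Finset.sum_nonneg fun w _ => hq _
  induction hX with
  | zero => exact ⟨0, le_rfl, fun g f => by simp⟩
  | base h u hu =>
    obtain ⟨C, hC, ht⟩ := tri
    refine ⟨C * √(nA p h), by positivity, fun g f => ?_⟩
    beta_reduce
    rw [symm]
    refine (ht _ _ _).trans ?_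
    gcongr
    calc _ ≤ Yq L u.length g :=
          Finset.single_le_sum
            (f := fun w => ip (L (apW w g)) (apW w g) + ip (apW w g) (apW w g))
            (fun w _ => hq _) (mem_words.2 rfl)
      _ ≤ _ := Finset.single_le_sum (f := fun j => Yq L j g) (fun j _ => hY j g)
            (Finset.mem_range.2 hu)
  | add _ _ h1 h2 =>
    obtain ⟨C, hC, h1⟩ := h1
    obtain ⟨C', hC', h2⟩ := h2
    refine ⟨C + C', add_nonneg hC hC', fun g f => ?_⟩
    rw [map_add, LinearMap.add_apply]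
    refine (abs_add_le _ _).trans ?_
    linarith [h1 g f, h2 g f]

lemma mul_sqrt_le {a D : ℝ} (hD : 0 ≤ D) : a * √D ≤ D / 2 + a ^ 2 / 2 := by
  nlinarith [sq_nonneg (√D - a), Real.sq_sqrt hD]

theorem corrector (symm : ∀ f g, G f g = G g f)
    (leib : ∀ j f g, ap j (G f g) = G (ap j f) g + G f (ap j g))
    (hyd : ∀ f g, PP (G f g) = 0) (L_eq : ∀ f, L f = -G sqMS f)
    (L_symm : ∀ f g, ip (L f) g = ip f (L g))
    (gap : ∃ lam : ℝ, 0 < lam ∧ ∀ f, lam * ip (f - PP f) (f - PP f) ≤ ip (L f) f)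
    (tri : ∃ C : ℝ, 0 < C ∧ ∀ g h f,
      |ip (G g h) f| ≤ C * √(nA p h) * √(ip (L g) g + ip g g) * √(ip (L f) f))
    (S : SV) (hS : PP S = 0) : ∃ Φ, PP Φ = 0 ∧ L Φ = S := by
  obtain ⟨lam, hlam, hgap⟩ := gap
  have hD : ∀ f, 0 ≤ ip (L f) f := fun f =>
    (mul_nonneg hlam.le (ip_self_nonneg _)).trans (hgap f)
  have hPL : ∀ f, PP (L f) = 0 := fun f => by rw [L_eq, map_neg, hyd, neg_zero]
  have hgap' : ∀ f, PP f = 0 → lam * ip f f ≤ ip (L f) f := fun f hf => by
    have := hgap f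
    rwa [hf, sub_zero] at this
  have hgal : ∀ n : ℕ, ∃ Φ ∈ HP (n + 2), PP Φ = 0 ∧ ∀ ψ ∈ HP (n + 2), ip (L Φ) ψ = ip S ψ := by
    intro n
    obtain ⟨Φ, hΦ, h⟩ := exists_galerkin (HP (n + 2) ⊓ LinearMap.ker (PP : SV →ₗ[ℝ] SV))
      (ip.comp (L : SV →ₗ[ℝ] SV)) (fun x hx h0 => by
        have h1 := hgap' x hx.2
        have h2 : ip (L x) x = 0 := h0
        refine ip_self_eq_zero (le_antisymm ?_ (ip_self_nonneg x))
        rw [h2] at h1
        exact nonpos_of_mul_nonpos_right h1 hlam) (ip S)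
    refine ⟨Φ, hΦ.1, hΦ.2, fun ψ hψ => ?_⟩
    have h1 : ip (L Φ) (ψ - PP ψ) = ip S (ψ - PP ψ) :=
      h (ψ - PP ψ) ⟨Submodule.sub_mem _ hψ (HP_mono (by omega) (PP_mem ψ)), PP_sub_PP ψ⟩
    rwa [map_sub, map_sub, ← ip_PP, ← ip_PP, hPL, hS, map_zero, LinearMap.zero_apply, sub_zero,
      sub_zero] at h1
  choose Φ hΦ hP hE using hgal
  -- the basic bound
  have h0 : ∀ n, √(ip (Φ n) (Φ n)) ≤ √(ip S S) / lam := by
    intro n
    have h1 := hgap' _ (hP n)
    rw [hE n _ (hΦ n)] at h1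
    have h2 := (le_abs_self _).trans (abs_ip_le S (Φ n))
    have h3 := Real.mul_self_sqrt (ip_self_nonneg (Φ n))
    rw [le_div_iff₀ hlam]
    by_cases h4 : √(ip (Φ n) (Φ n)) = 0
    · rw [h4, zero_mul]; positivity
    · have h5 : 0 < √(ip (Φ n) (Φ n)) := lt_of_le_of_ne (Real.sqrt_nonneg _) (Ne.symm h4)
      refine le_of_mul_le_mul_right ?_ h5
      nlinarith
  have h0' : ∀ n, ip (Φ n) (Φ n) ≤ (√(ip S S) / lam) ^ 2 := fun n => by
    rw [← Real.sq_sqrt (ip_self_nonneg (Φ n))]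
    gcongr
    exact h0 n
  -- bounds at every level
  have hlev : ∀ m, ∃ C : ℝ, ∀ n, ∑ j ∈ Finset.range m, Yq L j (Φ n) ≤ C := by
    intro m
    induction m with
    | zero => exact ⟨0, fun n => by simp⟩
    | succ m ih =>
      obtain ⟨C0, hC0⟩ := ih
      choose X hX hXe using exists_comm leib L_eq
      choose CX hCX0 hCX using fun w => (hX w).bound symm hD tri
      choose CP hCP0 hCP using PP_apW_le
      set B := √(ip S S) / lam with hB
      refine ⟨C0 + ((1 + lam⁻¹) * (2 * (√(ip (RR m S) (RR m S)) * B) +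
        ∑ w ∈ words m, (CX w * √C0) ^ 2) + ∑ w ∈ words m, CP w * B ^ 2), fun n => ?_⟩
      rw [Finset.sum_range_succ]
      gcongr
      · exact hC0 n
      set g := Φ n with hg
      have e1 : ∑ w ∈ words m, ip (L (apW w g)) (apW w g) =
          ip (RR m S) g - ∑ w ∈ words m, ip (X w g) (apW w g) := by
        rw [ip_RR_symm, ← hE n _ (RR_mem m (hΦ n)), ip_RR, ← Finset.sum_sub_distrib]
        refine Finset.sum_congr rfl fun w _ => ?_
        rw [hXe, map_add, LinearMap.add_apply]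
        ring
      have e2 : ∀ w ∈ words m, -ip (X w g) (apW w g) ≤
          ip (L (apW w g)) (apW w g) / 2 + (CX w * √C0) ^ 2 / 2 := by
        intro w hw
        refine (neg_le_abs _).trans ((hCX w g _).trans (le_trans ?_ (mul_sqrt_le (hD _))))
        have := hCX0 w
        rw [mem_words.1 hw]
        gcongr
        exact hC0 n
      have e3 : ip (RR m S) g ≤ √(ip (RR m S) (RR m S)) * B := by
        refine (le_abs_self _).trans ((abs_ip_le _ _).trans ?_)
        gcongr
        exact h0 n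
      have e4 : ∑ w ∈ words m, ip (L (apW w g)) (apW w g) ≤
          2 * (√(ip (RR m S) (RR m S)) * B) + ∑ w ∈ words m, (CX w * √C0) ^ 2 := by
        have := Finset.sum_le_sum e2
        rw [Finset.sum_add_distrib, ← Finset.sum_div, ← Finset.sum_div,
          Finset.sum_neg_distrib] at this
        linarith
      have e5 : ∀ w ∈ words m, ip (L (apW w g)) (apW w g) + ip (apW w g) (apW w g) ≤
          (1 + lam⁻¹) * ip (L (apW w g)) (apW w g) + CP w * B ^ 2 := by
        intro w _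
        have h1 := ip_split (apW w g)
        have h2 := hgap (apW w g)
        have h3 : ip (apW w g - PP (apW w g)) (apW w g - PP (apW w g)) ≤
            lam⁻¹ * ip (L (apW w g)) (apW w g) := by
          rw [← div_eq_inv_mul, le_div_iff₀ hlam, mul_comm]; exact h2
        have h4 := (hCP w g).trans (mul_le_mul_of_nonneg_left (h0' n) (hCP0 w))
        linarith
      refine (Finset.sum_le_sum e5).trans ?_
      rw [Finset.sum_add_distrib, ← Finset.mul_sum]
      gcongr
  have hbd : ∀ m, ∃ C, ∀ n, nA m (Φ n) ≤ C := by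
    intro m
    obtain ⟨C, hC⟩ := hlev (m + 1)
    refine ⟨C, fun n => le_trans ?_ (hC n)⟩
    have hY : ∀ j, 0 ≤ Yq L j (Φ n) := fun j =>
      Finset.sum_nonneg fun w _ => add_nonneg (hD _) (ip_self_nonneg _)
    refine le_trans ?_ (Finset.single_le_sum (f := fun j => Yq L j (Φ n)) (fun j _ => hY j)
      (Finset.mem_range.2 (Nat.lt_succ_self m)))
    exact Finset.sum_le_sum fun w _ => le_add_of_nonneg_left (hD _)
  -- monotonicity of the dissipation
  set d : ℕ → ℝ := fun n => ip (L (Φ n)) (Φ n) with hd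
  have hdiff : ∀ a b, b ≤ a → ip (L (Φ a - Φ b)) (Φ a - Φ b) = d a - d b := by
    intro a b hab
    have h1 : ip (L (Φ a)) (Φ b) = d b := by
      rw [hE a _ (HP_mono (by omega) (hΦ b)), ← hE b _ (hΦ b)]
    have h2 : ip (L (Φ b)) (Φ a) = d b := by rw [L_symm, ip_comm, h1]
    simp only [map_sub, LinearMap.sub_apply, h1, h2, hd]
    ring
  have hmono : Monotone d := fun b a hab => by linarith [hdiff a b hab, hD (Φ a - Φ b)]
  have hbdd : BddAbove (Set.range d) := by
    refine ⟨√(ip S S) * (√(ip S S) / lam), ?_⟩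
    rintro _ ⟨n, rfl⟩
    simp only [hd]
    rw [hE n _ (hΦ n)]
    refine (le_abs_self _).trans ((abs_ip_le _ _).trans ?_)
    gcongr
    exact h0 n
  have hcau := Metric.cauchySeq_iff.1 (tendsto_atTop_ciSup hmono hbdd).cauchySeq
  obtain ⟨g, hg⟩ := exists_limit_of_bdd Φ hbd fun ε hε => by
    obtain ⟨N, hN⟩ := hcau (lam * ε) (by positivity)
    have key : ∀ a ≥ N, ∀ b ≥ N, b ≤ a → nA 0 (Φ a - Φ b) ≤ ε := by
      intro a ha b hb hab
      have h1 := hgap' (Φ a - Φ b) (by rw [map_sub, hP, hP, sub_zero])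
      rw [hdiff a b hab] at h1
      have h2 := (le_abs_self _).trans (hN a ha b hb).le
      rw [nA_zero]
      exact le_of_mul_le_mul_left (h1.trans h2) hlam
    refine ⟨N, fun a ha b hb => ?_⟩
    rcases le_total b a with h | h
    · exact key a ha b hb h
    · rw [nA_sub_comm]; exact key b hb a ha h
  refine ⟨g, ?_, ?_⟩
  · have h1 := (PP.continuous.tendsto g).comp hg
    have h2 : (PP ∘ Φ) = fun _ => 0 := funext hP
    rw [h2] at h1
    exact tendsto_nhds_unique h1 tendsto_const_nhds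
  · rw [← sub_eq_zero]
    refine eq_zero_of_ip_HP fun n ψ hψ => ?_
    have h1 := (((ipL ψ).comp L).continuous.tendsto g).comp hg
    have h2 : (((ipL ψ).comp L) ∘ Φ) =ᶠ[atTop] fun _ => ip ψ S := by
      filter_upwards [eventually_ge_atTop n] with a ha
      change ip ψ (L (Φ a)) = _
      rw [ip_comm, hE a ψ (HP_mono (by omega) hψ), ip_comm]
    have h3 : ip ψ (L g) = ip ψ S := tendsto_nhds_unique (h1.congr' h2) tendsto_const_nhds
    rw [ip_comm, map_sub, h3, sub_self]

end Main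

end Pool.Agent.MP_187b32_an.Corr
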